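import Pool.Agent.E8helper37.RX.Poly
import Pool.Agent.TH379.PER.E
import Pool.Agent.H340R2.LW

/-!
# Arithmetic expressions in `e`, `1/π`, `γ` of all shapes are almost never periods of one variable

`Forms δ` is the space of all linear combinations, with algebraic coefficients, of the integrals
of rational functions of one variable with algebraic coefficients over compact intervals with
algebraic end points, of all logarithms of algebraic numbers, and of finitely many arbitrary
complex numbers `δ 0, ..., δ (g - 1)`.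

An arithmetic expression is a binary tree with labelled leaves and with nodes labelled by the
operations `+`, `*`, `/`. There are `s ^ (n + 1) * 3 ^ n * C_n` expressions with `n + 1` leaves and `s`
leaf labels (`C_n` the Catalan numbers). The leaf labels are positive real numbers, one of them
transcendental, for instance `1`, `e`, `1/π`, `γ`. Let `C` be the value of an expression. For all `g`,
`D`, `ε` and all large `n`, uniformly in everything else:

(A) for all complex `a, b, c, d` with `a d ≠ b c` and all `δ_0, ..., δ_(g-1)` the number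
`(a C + b) / (c C + d)` is in `Forms δ` for at most an `ε`-fraction of the expressions with `n` leaves;
(B) for all polynomials `F` with arbitrary complex coefficients, `1 ≤ deg F ≤ D`, the number `F(C)` is
in `Forms δ` for at most an `ε`-fraction of the expressions with the operations `+`, `*`;
(C) for all nonzero complex `κ`, `l` the number `κ exp (l C)` is in `Forms δ` for at most an
`ε`-fraction of the expressions with the operations `+`, `*`.

(D) The leaf labels `1`, `e`, `1/π`, `γ`: they are positive, and `e` is transcendental.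

Proof of (B), (A) and (C) being as in `MP_f55379_nt/RandomExpressionsH37`: all but an exponentially
small proportion of the expressions contain a member of a family of subexpressions with the values
`x + θ (θ - 1) (i_0 + i_1 θ + ... + i_(K-1) θ ^ (K-1))`, `0 ≤ i_k ≤ h`; they can be replaced by each
other. For a polynomial `F` of degree `m` the divided difference of `m + 1` values in one of the
directions is `κ θ ^ (k m)` with `κ` independent of the direction `k`, and the numbers `κ θ ^ (k m)`,
`k < 2 g + 4`, are not all in `Forms δ` (product inequality of Waldschmidt and Roy, starting file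
`Pool/Agent/W254/HP/Prod.lean`). So at most `m` of the `h + 1` values on a line are in `Forms δ`.
-/

set_option autoImplicit false

namespace Pool.Agent.Results.MP_725b61_nt.AllExpressionsH37

open Pool.Agent.E8helper37.RX
open Pool.Agent.H301R2.SSE (QB mem_QB Lt Lt_alg Lt_log)
open Pool.Agent.TH379.PER

/-- The operations `+`, `*`, `/`. -/
noncomputable def arith : Fin 3 → ℝ → ℝ → ℝ :=
  ![fun x y => x + y, fun x y => x * y, fun x y => x / y]

/-- The operations `+`, `*`. -/
noncomputable def semi : Fin 2 → ℝ → ℝ → ℝ := ![fun x y => x + y, fun x y => x * y]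

/-- The numbers `1`, `e`, `1/π`, `γ`. -/
noncomputable def num : Fin 4 → ℝ :=
  ![1, Real.exp 1, 1 / Real.pi, Real.eulerMascheroniConstant]

theorem arith_ari : Ari arith := by
  intro o
  fin_cases o
  · exact Or.inl rfl
  · exact Or.inr (Or.inl rfl)
  · exact Or.inr (Or.inr rfl)

theorem semi_semi : Semi semi := by
  intro o
  fin_cases o
  · exact Or.inl rfl
  · exact Or.inr rfl

instance spanFd {g : ℕ} (δ : Fin g → ℂ) : FiniteDimensional QB (Submodule.span QB (Set.range δ)) :=
  FiniteDimensional.span_of_finite QB (Set.finite_range _)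

theorem span_le {g : ℕ} (δ : Fin g → ℂ) :
    Module.finrank QB (Submodule.span QB (Set.range δ)) ≤ g := by
  have h1 := finrank_range_le_card (R := QB) δ
  rwa [Fintype.card_fin, Set.finrank] at h1

theorem num_pos (s : Fin 4) : 0 < num s := by
  fin_cases s
  · exact one_pos
  · exact Real.exp_pos 1
  · exact one_div_pos.2 Real.pi_pos
  · exact lt_trans (by norm_num) Real.one_half_lt_eulerMascheroniConstant

theorem num_tr : Transcendental ℚ (num 1) := by
  intro h
  apply Pool.Agent.H340R2.LW.transcendental_exp_one_complex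
  have h1 := h.algebraMap (A := ℂ)
  have h2 : (algebraMap ℝ ℂ) (num 1) = Complex.exp 1 := by
    simp [num]
  rwa [h2] at h1

section

variable {σ : Type} [Fintype σ] {v : σ → ℝ} (hv : ∀ s, 0 < v s) (hs : ∃ s, Transcendental ℚ (v s))
include hv hs

theorem partA (g : ℕ) {ε : ℝ} (hε : 0 < ε) : ∃ n₀ : ℕ, ∀ n ≥ n₀, ∀ a b c d : ℂ, a * d ≠ b * c →
      ∀ δ : Fin g → ℂ, (Nat.card {t : Expr σ (Fin 3) // t.leaves = n ∧
        (a * ((t.value arith v : ℝ) : ℂ) + b) / (c * ((t.value arith v : ℝ) : ℂ) + d) ∈ Forms δ} : ℝ) ≤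
        ε * Nat.card {t : Expr σ (Fin 3) // t.leaves = n} := by
  classical
  obtain ⟨s, hs⟩ := hs
  obtain ⟨n₀, hn₀⟩ := main_mob arith_ari hv (p := 0) (q := 1) rfl rfl (by decide) hs g hε
  refine ⟨n₀ + 1, fun n hn a b c d hdet δ => ?_⟩
  obtain ⟨m, rfl⟩ : ∃ m, n = m + 1 := ⟨n - 1, by omega⟩
  rw [card_eq m (fun t : Expr σ (Fin 3) => (a * ((t.value arith v : ℝ) : ℂ) + b) /
        (c * ((t.value arith v : ℝ) : ℂ) + d) ∈ Forms δ), card_all]
  refine le_trans (Finset.sum_le_sum fun t _ => ind_mono fun h => ?_)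
    (hn₀ m (by omega) a b c d hdet (Submodule.span QB (Set.range δ)) inferInstance (span_le δ))
  exact Forms_le δ h

theorem partB (g D : ℕ) {ε : ℝ} (hε : 0 < ε) : ∃ n₀ : ℕ, ∀ n ≥ n₀, ∀ F : Polynomial ℂ,
      1 ≤ F.natDegree → F.natDegree ≤ D →
      ∀ δ : Fin g → ℂ, (Nat.card {t : Expr σ (Fin 2) // t.leaves = n ∧
        F.eval (((t.value semi v : ℝ) : ℂ)) ∈ Forms δ} : ℝ) ≤
        ε * Nat.card {t : Expr σ (Fin 2) // t.leaves = n} := by
  classical
  obtain ⟨s, hs⟩ := hs
  obtain ⟨n₀, hn₀⟩ := main_poly semi_semi hv (p := 0) (q := 1) rfl rfl (by decide) hs g D hε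
  refine ⟨n₀ + 1, fun n hn F h1 hD δ => ?_⟩
  obtain ⟨m, rfl⟩ : ∃ m, n = m + 1 := ⟨n - 1, by omega⟩
  rw [card_eq m (fun t : Expr σ (Fin 2) => F.eval (((t.value semi v : ℝ) : ℂ)) ∈ Forms δ), card_all]
  refine le_trans (Finset.sum_le_sum fun t _ => ind_mono fun h => ?_)
    (hn₀ m (by omega) F h1 hD (Submodule.span QB (Set.range δ)) inferInstance (span_le δ))
  exact Forms_le δ h

theorem partC (g : ℕ) {ε : ℝ} (hε : 0 < ε) : ∃ n₀ : ℕ, ∀ n ≥ n₀, ∀ κ l : ℂ, κ ≠ 0 → l ≠ 0 →
      ∀ δ : Fin g → ℂ, (Nat.card {t : Expr σ (Fin 2) // t.leaves = n ∧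
        κ * Complex.exp (l * ((t.value semi v : ℝ) : ℂ)) ∈ Forms δ} : ℝ) ≤
        ε * Nat.card {t : Expr σ (Fin 2) // t.leaves = n} := by
  classical
  obtain ⟨s, hs⟩ := hs
  obtain ⟨n₀, hn₀⟩ := main_exp semi_semi hv (p := 0) (q := 1) rfl rfl (by decide) hs g hε
  refine ⟨n₀ + 1, fun n hn κ l hκ hl δ => ?_⟩
  obtain ⟨m, rfl⟩ : ∃ m, n = m + 1 := ⟨n - 1, by omega⟩
  rw [card_eq m (fun t : Expr σ (Fin 2) => κ * Complex.exp (l * ((t.value semi v : ℝ) : ℂ)) ∈ Forms δ),
    card_all]
  refine le_trans (Finset.sum_le_sum fun t _ => ind_mono fun h => ?_)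
    (hn₀ m (by omega) κ l hκ hl (Submodule.span QB (Set.range δ)) inferInstance (span_le δ))
  exact Forms_le δ h

end

/-- **Almost all arithmetic expressions in `e`, `1/π`, `γ` are not periods of one variable.** -/
theorem result :
    (∀ (σ : Type) [Fintype σ] (v : σ → ℝ), (∀ s, 0 < v s) → (∃ s, Transcendental ℚ (v s)) →
      ∀ (g D : ℕ) (ε : ℝ), 0 < ε → ∃ n₀ : ℕ, ∀ n ≥ n₀, ∀ δ : Fin g → ℂ,
        -- (A)
        (∀ a b c d : ℂ, a * d ≠ b * c →
          (Nat.card {t : Expr σ (Fin 3) // t.leaves = n ∧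
            (a * ((t.value arith v : ℝ) : ℂ) + b) / (c * ((t.value arith v : ℝ) : ℂ) + d) ∈
              Forms δ} : ℝ) ≤
            ε * Nat.card {t : Expr σ (Fin 3) // t.leaves = n}) ∧
        -- (B)
        (∀ F : Polynomial ℂ, 1 ≤ F.natDegree → F.natDegree ≤ D →
          (Nat.card {t : Expr σ (Fin 2) // t.leaves = n ∧
            F.eval (((t.value semi v : ℝ) : ℂ)) ∈ Forms δ} : ℝ) ≤
            ε * Nat.card {t : Expr σ (Fin 2) // t.leaves = n}) ∧
        -- (C)
        (∀ κ l : ℂ, κ ≠ 0 → l ≠ 0 →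
          (Nat.card {t : Expr σ (Fin 2) // t.leaves = n ∧
            κ * Complex.exp (l * ((t.value semi v : ℝ) : ℂ)) ∈ Forms δ} : ℝ) ≤
            ε * Nat.card {t : Expr σ (Fin 2) // t.leaves = n})) ∧
    -- (D)
    (∀ s, 0 < num s) ∧ Transcendental ℚ (num 1) := by
  refine ⟨?_, num_pos, num_tr⟩
  intro σ _ v hv hs g D ε hε
  obtain ⟨n₁, hn₁⟩ := partA hv hs g hε
  obtain ⟨n₂, hn₂⟩ := partB hv hs g D hε
  obtain ⟨n₃, hn₃⟩ := partC hv hs g hε
  refine ⟨max n₁ (max n₂ n₃), fun n hn δ => ⟨?_, ?_, ?_⟩⟩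
  · intro a b c d hdet
    exact hn₁ n (le_trans (le_max_left _ _) hn) a b c d hdet δ
  · intro F h1 hD
    exact hn₂ n (le_trans (le_trans (le_max_left _ _) (le_max_right _ _)) hn) F h1 hD δ
  · intro κ l hκ hl
    exact hn₃ n (le_trans (le_trans (le_max_right _ _) (le_max_right _ _)) hn) κ l hκ hl δ

end Pool.Agent.Results.MP_725b61_nt.AllExpressionsH37
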