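import Pool.Agent.E8helper48.RX.All

/-!
# Random operations and periods of one variable

`Forms δ` is the space of all linear combinations, with algebraic coefficients, of the integrals
of rational functions of one variable with algebraic coefficients over compact intervals with
algebraic end points, of all logarithms of algebraic numbers, and of finitely many arbitrary
complex numbers `δ 0, ..., δ (g - 1)`.

(C) Words of length `n` in affine maps `y ↦ a i * y + b i`, two of which do not commute, one `a i`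
being transcendental: the proportion of those whose value is in `Forms δ` is at most
`16 * 2 ^ g * exp (-c n ^ (1/3))`. Almost surely all but finitely many of the numbers obtained
successively are outside `Forms δ`.
(D) The operations `y * e`, `y / π`, `y * γ`, `y + 1`, and the operations `y / π`, `y + 1`.
-/

set_option autoImplicit false

namespace Pool.Agent.Results.MP_725b61_nt.RandomOperationsH48

open Filter MeasureTheory
open Pool.Agent.E8helper48.RX.All
open Pool.Agent.TH379.PER

theorem result :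
    -- (C) random words of affine maps
    (∀ q : ℕ, ∃ c > 0, ∀ (ι : Type) [Fintype ι] (a b : ι → ℂ), Fintype.card ι = q →
      (∀ i, a i ≠ 0) → (∃ k, Transcendental ℚ (a k)) →
      (∃ i j, a i * b j + b i ≠ a j * b i + b j) →
      ∀ (g : ℕ) (δ : Fin g → ℂ) (n : ℕ) (y : ℂ),
        (Nat.card {w : Fin n → ι // run (fun i y => a i * y + b i) w y ∈ Forms δ} : ℝ) ≤
          16 * 2 ^ g * (q : ℝ) ^ n * Real.exp (-(c * (n : ℝ) ^ (1 / 3 : ℝ)))) ∧
    (∀ (ι : Type) [Fintype ι] [Nonempty ι] [MeasurableSpace ι] [MeasurableSingletonClass ι]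
      (a b : ι → ℂ), (∀ i, a i ≠ 0) → (∃ k, Transcendental ℚ (a k)) →
      (∃ i j, a i * b j + b i ≠ a j * b i + b j) → ∀ (g : ℕ) (δ : Fin g → ℂ) (y : ℂ),
        ∀ᵐ ω ∂(Measure.infinitePi fun _ : ℕ => (PMF.uniformOfFintype ι).toMeasure),
          ∀ᶠ n : ℕ in atTop,
            run (fun i y => a i * y + b i) (fun k : Fin n => ω k) y ∉ Forms δ) ∧
    -- (D) the operations `y * e`, `y / π`, `y * γ`, `y + 1`
    (∃ c > 0, ∀ (g : ℕ) (δ : Fin g → ℂ) (n : ℕ) (y : ℂ),
      (Nat.card {w : Fin n → Fin 4 // run ops w y ∈ Forms δ} : ℝ) ≤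
        16 * 2 ^ g * 4 ^ n * Real.exp (-(c * (n : ℝ) ^ (1 / 3 : ℝ))) ∧
      (Nat.card {w : Fin n → Fin 2 //
        run ![fun y => y / (Real.pi : ℂ), fun y => y + 1] w y ∈ Forms δ} : ℝ) ≤
        16 * 2 ^ g * 2 ^ n * Real.exp (-(c * (n : ℝ) ^ (1 / 3 : ℝ)))) ∧
    (∀ (g : ℕ) (δ : Fin g → ℂ) (y : ℂ),
      ∀ᵐ ω ∂(Measure.infinitePi fun _ : ℕ => (PMF.uniformOfFintype (Fin 4)).toMeasure),
        ∀ᶠ n : ℕ in atTop, run ops (fun k : Fin n => ω k) y ∉ Forms δ) :=
  Pool.Agent.E8helper48.RX.All.operations_result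

end Pool.Agent.Results.MP_725b61_nt.RandomOperationsH48
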