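import Pool.Agent.E8helper48.RX.All

/-!
# Random products of `1`, `e`, `1/π`, `γ` and periods of one variable

`Forms δ` is the space of all linear combinations, with algebraic coefficients, of the integrals
of rational functions of one variable with algebraic coefficients over compact intervals with
algebraic end points, of all logarithms of algebraic numbers, and of finitely many arbitrary
complex numbers `δ 0, ..., δ (g - 1)`.

(A) Products of `n` numbers taken from a finite family of non-zero complex numbers, two of which
have a transcendental ratio: the proportion of those in `(1 / y) Forms δ` is `O (n ^ (-1/4))`.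
(B) Products of `n` factors `1`, `e`, `1/π`, `γ`.
-/

set_option autoImplicit false

namespace Pool.Agent.Results.MP_725b61_nt.RandomProductsH48

open Filter MeasureTheory
open Pool.Agent.E8helper48.RX.All
open Pool.Agent.TH379.PER

theorem result :
    -- (A) random products
    (∀ (ι : Type) [Fintype ι] (t : ι → ℂ), (∀ i, t i ≠ 0) →
      (∃ i j, Transcendental ℚ (t i / t j)) →
      ∀ (g : ℕ) (δ : Fin g → ℂ) (y : ℂ), y ≠ 0 → ∀ n : ℕ,
        (Nat.card {w : Fin n → ι // y * ∏ k, t (w k) ∈ Forms δ} : ℝ) ≤
          (g + 3) * (Fintype.card ι + 6) * (Fintype.card ι : ℝ) ^ n /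
            ((n : ℝ) + 1) ^ (1 / 4 : ℝ)) ∧
    -- (B) random products of the numbers `1`, `e`, `1/π`, `γ`
    (∀ (g : ℕ) (δ : Fin g → ℂ) (y : ℂ), y ≠ 0 → ∀ n : ℕ,
      (Nat.card {w : Fin n → Fin 4 // y * ∏ k, num (w k) ∈ Forms δ} : ℝ) ≤
        10 * (g + 3) * 4 ^ n / ((n : ℝ) + 1) ^ (1 / 4 : ℝ)) :=
  Pool.Agent.E8helper48.RX.All.products_result

end Pool.Agent.Results.MP_725b61_nt.RandomProductsH48
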